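import Mathlib
import Pool.Agent.W402.FK.RKS
import Pool.Agent.Y667.RP.Stm

set_option autoImplicit false

/-! Job 82 (project RP): the rank and the order of the 2-Selmer group. -/

open WeierstrassCurve

namespace Pool.Agent.Y155.RP

open Pool.Agent.H437R2.Man.MW (crv crv_eqn crv_nonsing add_double pt_fg neg_mk)
open Pool.Agent.W307.SE Pool.Agent.W307.RT Pool.Agent.W402.FK

/-- the cokernel of doubling on a finite abelian group is as large as the kernel -/
lemma index_double (F : Type) [AddCommGroup F] [Finite F] :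
    Nat.card (F ⧸ (nsmulAddMonoidHom (α := F) 2).range) =
      Nat.card (nsmulAddMonoidHom (α := F) 2).ker := by
  set f := nsmulAddMonoidHom (α := F) 2
  have h1 := AddSubgroup.card_mul_index f.ker
  have h2 := AddSubgroup.card_mul_index f.range
  rw [AddSubgroup.index_ker] at h1
  rw [AddSubgroup.index_eq_card] at h2
  have h3 : 0 < Nat.card f.range := Nat.card_pos
  have h4 : Nat.card f.range * Nat.card (F ⧸ f.range) = Nat.card f.range * Nat.card f.ker := by
    rw [h2, ← h1, mul_comm]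
  exact Nat.eq_of_mul_eq_mul_left h3 h4

/-- a finitely generated abelian group of rank `r` with at least four elements of order dividing
two, covered by `T + 2 G`, has `2 ^ (r + 2) ≤ |T|`. -/
theorem rkb2 (G : Type) [AddCommGroup G] (hG : AddGroup.FG G) (T : Finset G)
    (hcov : ∀ g : G, ∃ t ∈ T, ∃ q, g = t + (q + q)) (F4 : Finset G) (h4 : 4 ≤ F4.card)
    (hF4 : ∀ g ∈ F4, g + g = 0) : 2 ^ (Module.finrank ℤ G + 2) ≤ T.card := by
  classical
  have : Module.Finite ℤ G := Module.Finite.iff_addGroup_fg.mpr hG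
  let F := Submodule.torsion ℤ G
  let M := G ⧸ F
  have hr : Module.finrank ℤ M = Module.finrank ℤ G :=
    finrank_quotient_eq_of_le_torsion le_rfl
  rw [← hr]
  have : Module.Finite ℤ M := inferInstance
  have : Module.Free ℤ M := inferInstance
  have hFf : Finite F := Module.finite_of_fg_torsion F (by
    intro x
    obtain ⟨⟨a, ha⟩, hx⟩ := Submodule.torsion_isTorsion (R := ℤ) (M := G) (x := x)
    exact ⟨⟨a, ha⟩, hx⟩)
  obtain ⟨σ, hσ⟩ := Module.projective_lifting_property F.mkQ (LinearMap.id : M →ₗ[ℤ] M)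
    F.mkQ_surjective
  have hσ' : ∀ m : M, F.mkQ (σ m) = m := fun m => LinearMap.congr_fun hσ m
  -- the projection to the torsion subgroup
  let π : G → F := fun g => ⟨g - σ (F.mkQ g), by
    rw [← Submodule.Quotient.mk_eq_zero]
    change F.mkQ (g - σ (F.mkQ g)) = 0
    rw [map_sub, hσ', sub_self]⟩
  have hπadd : ∀ g h, π (g + h) = π g + π h := by
    intro g h
    apply Subtype.ext
    simp only [π, map_add, Submodule.coe_add]
    abel
  let r := Module.finrank ℤ M
  let b : Module.Basis (Fin r) ℤ M := Module.finBasis ℤ M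
  let φ : G → (Fin r → ZMod 2) := fun g i =>
    ((b.repr (F.mkQ g) i : ℤ) : ZMod 2)
  have hφadd : ∀ g h, φ (g + h) = φ g + φ h := by
    intro g h
    ext i
    simp [φ]
  let D := (nsmulAddMonoidHom (α := F) 2).range
  let ψ : G → (Fin r → ZMod 2) × (F ⧸ D) := fun g => (φ g, QuotientAddGroup.mk (π g))
  have hψ : ∀ t q, ψ (t + (q + q)) = ψ t := by
    intro t q
    simp only [ψ]
    rw [hφadd, hφadd, hπadd, hπadd]
    congr 1
    · ext i
      have : φ q i + φ q i = 0 := CharTwo.add_self_eq_zero _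
      simp [this]
    · symm
      rw [QuotientAddGroup.eq]
      refine ⟨π q, ?_⟩
      rw [nsmulAddMonoidHom_apply, two_nsmul]
      abel
  have hψsurj : Function.Surjective ψ := by
    rintro ⟨v, c⟩
    obtain ⟨f, rfl⟩ := QuotientAddGroup.mk_surjective c
    let m : M := b.equivFun.symm (fun i => ((v i).val : ℤ))
    refine ⟨σ m + f, ?_⟩
    have h1 : F.mkQ (σ m + f) = m := by
      rw [map_add, hσ']
      have : F.mkQ (f : G) = 0 := by
        rw [Submodule.mkQ_apply, Submodule.Quotient.mk_eq_zero]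
        exact f.2
      rw [this, add_zero]
    simp only [ψ]
    congr 1
    · ext i
      simp only [φ, h1, m]
      rw [← Module.Basis.equivFun_apply, LinearEquiv.apply_symm_apply]
      simp
    · congr 1
      apply Subtype.ext
      simp only [π, h1]
      abel
  have hfin : Finite (F ⧸ D) := inferInstance
  have hcard : Nat.card ((Fin r → ZMod 2) × (F ⧸ D)) ≤ T.card := by
    have := Fintype.ofFinite (F ⧸ D)
    rw [Nat.card_eq_fintype_card, ← Finset.card_univ]
    refine Finset.card_le_card_of_surjOn ψ ?_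
    intro v _
    obtain ⟨g, rfl⟩ := hψsurj v
    obtain ⟨t, ht, q, rfl⟩ := hcov g
    exact ⟨t, ht, (hψ t q).symm⟩
  refine le_trans ?_ hcard
  rw [Nat.card_prod, index_double F, pow_add]
  apply Nat.mul_le_mul
  · rw [Nat.card_eq_fintype_card, Fintype.card_fun, ZMod.card, Fintype.card_fin]
  · -- the four elements
    have hmem : ∀ g ∈ F4, g ∈ F := by
      intro g hg
      refine ⟨⟨2, by simp⟩, ?_⟩
      change (2 : ℤ) • g = 0
      rw [two_smul]
      exact hF4 g hg
    let e : F4 → (nsmulAddMonoidHom (α := F) 2).ker := fun g => ⟨⟨g, hmem g g.2⟩, by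
      rw [AddMonoidHom.mem_ker, nsmulAddMonoidHom_apply, two_nsmul]
      apply Subtype.ext
      exact hF4 g g.2⟩
    have he : Function.Injective e := by
      intro g h hgh
      apply Subtype.ext
      have := congrArg (fun z : (nsmulAddMonoidHom (α := F) 2).ker => ((z : F) : G)) hgh
      exact this
    have := Nat.card_le_card_of_injective e he
    rw [Nat.card_eq_fintype_card, Fintype.card_coe] at this
    calc 2 ^ 2 = 4 := by norm_num
      _ ≤ F4.card := h4
      _ ≤ _ := this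

/-- the main step -/
theorem gen2 (A B e1 e2 e3 : ℤ) (hD : 4 * A ^ 3 + 27 * B ^ 2 ≠ 0)
    (h : ∀ x : ℤ, x ^ 3 + A * x + B = (x - e1) * (x - e2) * (x - e3))
    (hS : (SelR A B).Finite) (W : WeierstrassCurve ℚ)
    (hW : W = crv (-(e1 : ℚ)) (-(e2 : ℚ)) (-(e3 : ℚ)))
    (h0' : 1 ≤ Module.finrank ℤ W.toAffine.Point) :
    2 ^ (Module.finrank ℤ W.toAffine.Point + 2) ≤ (SelR A B).ncard := by
  classical
  subst hW
  obtain ⟨d12, d13, d23⟩ := dist A B e1 e2 e3 hD h
  have q12 : -(e1 : ℚ) ≠ -(e2 : ℚ) := fun h => d12 (by exact_mod_cast neg_injective h)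
  have q13 : -(e1 : ℚ) ≠ -(e3 : ℚ) := fun h => d13 (by exact_mod_cast neg_injective h)
  have q23 : -(e2 : ℚ) ≠ -(e3 : ℚ) := fun h => d23 (by exact_mod_cast neg_injective h)
  have hfg := pt_fg q12 q13 q23
  have hcub := cub ℚ A B e1 e2 e3 h
  have h0 : Module.finrank ℤ (crv (-(e1 : ℚ)) (-(e2 : ℚ)) (-(e3 : ℚ))).toAffine.Point ≠ 0 := by
    omega
  -- a point of infinite order
  have hinf : ∃ P0 : (crv (-(e1 : ℚ)) (-(e2 : ℚ)) (-(e3 : ℚ))).toAffine.Point,
      ∀ n : ℤ, n ≠ 0 → n • P0 ≠ 0 := by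
    by_contra hcon
    push Not at hcon
    apply h0
    have : Module.Finite ℤ (crv (-(e1 : ℚ)) (-(e2 : ℚ)) (-(e3 : ℚ))).toAffine.Point :=
      Module.Finite.iff_addGroup_fg.mpr hfg
    rw [Module.finrank_eq_zero_iff]
    intro P
    obtain ⟨n, h1, h2⟩ := hcon P
    exact ⟨n, h1, h2⟩
  obtain ⟨P0, hP0⟩ := hinf
  set R : (crv (-(e1 : ℚ)) (-(e2 : ℚ)) (-(e3 : ℚ))).toAffine.Point → (ℤ → ℤ) → Prop :=
    fun P d => ∃ (x y : ℚ) (hn : (crv (-(e1 : ℚ)) (-(e2 : ℚ)) (-(e3 : ℚ))).toAffine.Nonsingular x y),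
      P = Affine.Point.some x y hn ∧ y ≠ 0 ∧
      ∀ e : ℤ, e ^ 3 + A * e + B = 0 → IsSquare ((x - e) * d e) with hR
  set T : Finset (crv (-(e1 : ℚ)) (-(e2 : ℚ)) (-(e3 : ℚ))).toAffine.Point :=
    hS.toFinset.image (fun d => if hd : ∃ P, R P d then hd.choose else 0) with hT
  have hTc : T.card ≤ (SelR A B).ncard := by
    rw [Set.ncard_eq_toFinset_card _ hS]
    exact Finset.card_image_le
  -- nontrivial points are covered
  have hcov1 : ∀ (x y : ℚ)
      (hn : (crv (-(e1 : ℚ)) (-(e2 : ℚ)) (-(e3 : ℚ))).toAffine.Nonsingular x y), y ≠ 0 →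
      ∃ t ∈ T, ∃ q : (crv (-(e1 : ℚ)) (-(e2 : ℚ)) (-(e3 : ℚ))).toAffine.Point,
        (Affine.Point.some x y hn : (crv (-(e1 : ℚ)) (-(e2 : ℚ)) (-(e3 : ℚ))).toAffine.Point) =
          t + (q + q) := by
    intro x y hn hy
    have hxy : y ^ 2 = x ^ 3 + A * x + B := by
      rw [hcub x]
      have := crv_eqn.mp hn.1
      linear_combination this
    obtain ⟨d, hdS, hd⟩ := exists_cls A B x y hy hxy
    have hex : ∃ P, R P d := ⟨_, x, y, hn, rfl, hy, hd⟩
    refine ⟨hex.choose, ?_, ?_⟩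
    · rw [hT, Finset.mem_image]
      exact ⟨d, hS.mem_toFinset.2 hdS, by rw [dif_pos hex]⟩
    · obtain ⟨x', y', hn', hP, hy', hd'⟩ := hex.choose_spec
      rw [hP]
      have hxy' : y' ^ 2 = x' ^ 3 + A * x' + B := by
        rw [hcub x']
        have := crv_eqn.mp hn'.1
        linear_combination this
      have hsq : ∀ e : ℤ, e ^ 3 + A * e + B = 0 →
          ∃ r : ℚ, r ≠ 0 ∧ (x + -(e : ℚ)) * (x' + -(e : ℚ)) = r ^ 2 := by
        intro e he
        obtain ⟨r, hr⟩ := hd e he
        obtain ⟨r', hr'⟩ := hd' e he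
        have hd0 : (d e : ℚ) ≠ 0 := by exact_mod_cast (hdS.1 e).ne_zero
        have he' : (e : ℚ) ^ 3 + A * e + B = 0 := by exact_mod_cast he
        have hx0 : x - e ≠ 0 := by
          intro h0
          have h1 : x = e := sub_eq_zero.1 h0
          rw [h1, he'] at hxy
          exact hy (pow_eq_zero_iff (two_ne_zero) |>.1 hxy)
        have hx0' : x' - e ≠ 0 := by
          intro h0
          have h1 : x' = e := sub_eq_zero.1 h0
          rw [h1, he'] at hxy'
          exact hy' (pow_eq_zero_iff (two_ne_zero) |>.1 hxy')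
        have hrr : (x + -(e : ℚ)) * (x' + -(e : ℚ)) = (r * r' / d e) ^ 2 := by
          have h1 : (r * r') ^ 2 = ((x - e) * d e) * ((x' - e) * d e) := by
            rw [hr, hr']
            ring
          rw [div_pow, h1]
          field_simp
          ring
        refine ⟨r * r' / d e, ?_, hrr⟩
        intro h0
        rw [h0] at hrr
        have h1 : (x - e) * (x' - e) = 0 := by
          rw [sub_eq_add_neg, sub_eq_add_neg, hrr]
          ring
        exact mul_ne_zero hx0 hx0' h1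
      obtain ⟨r1, m1, hr1⟩ := hsq e1 (by rw [h e1]; ring)
      obtain ⟨r2, m2, hr2⟩ := hsq e2 (by rw [h e2]; ring)
      obtain ⟨r3, m3, hr3⟩ := hsq e3 (by rw [h e3]; ring)
      obtain ⟨Q, hQ⟩ := add_double (r1 := r1) (r2 := r2) (r3 := r3) q12 q13 q23 hn hn' m1 m2 m3
        hr1 hr2 hr3
      refine ⟨Q - Affine.Point.some x' y' hn', ?_⟩
      have e3 : (Affine.Point.some x y hn : (crv (-(e1 : ℚ)) (-(e2 : ℚ)) (-(e3 : ℚ))).toAffine.Point)
          = (Q + Q) - Affine.Point.some x' y' hn' := by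
        rw [hQ]
        abel
      rw [e3]
      abel
  -- all the points are covered
  have htriv : ∀ g : (crv (-(e1 : ℚ)) (-(e2 : ℚ)) (-(e3 : ℚ))).toAffine.Point,
      g + g = 0 ∨ ∃ t ∈ T, ∃ q : (crv (-(e1 : ℚ)) (-(e2 : ℚ)) (-(e3 : ℚ))).toAffine.Point,
        g = t + (q + q) := by
    intro g
    rcases g with _ | ⟨x, y, hn⟩
    · left
      exact add_zero _
    · by_cases hy : y = 0
      · left
        subst hy
        have h1 : (crv (-(e1 : ℚ)) (-(e2 : ℚ)) (-(e3 : ℚ))).toAffine.Nonsingular x (-0) := by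
          rw [neg_zero]
          exact hn
        have h2 := neg_mk hn h1
        have h3 : (Affine.Point.some x (-0) h1 :
            (crv (-(e1 : ℚ)) (-(e2 : ℚ)) (-(e3 : ℚ))).toAffine.Point) =
            Affine.Point.some x 0 hn := by
          congr 1
          try exact neg_zero
        rw [h3] at h2
        nth_rw 1 [← h2]
        exact neg_add_cancel _
      · right
        exact hcov1 x y hn hy
  have hcov : ∀ g : (crv (-(e1 : ℚ)) (-(e2 : ℚ)) (-(e3 : ℚ))).toAffine.Point,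
      ∃ t ∈ T, ∃ q, g = t + (q + q) := by
    intro g
    rcases htriv g with h1 | h1
    · rcases htriv (g + (P0 + P0)) with h2 | ⟨t, ht, q, hq⟩
      · exfalso
        apply hP0 4 (by norm_num)
        have h3 : (4 : ℤ) • P0 = (g + (P0 + P0)) + (g + (P0 + P0)) - (g + g) := by
          abel
        rw [h3, h1, h2, sub_zero]
      · refine ⟨t, ht, q - P0, ?_⟩
        have h3 : g = (g + (P0 + P0)) - (P0 + P0) := by abel
        rw [h3, hq]
        abel
    · exact h1
  -- the points of order two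
  have hT1 : (crv (-(e1 : ℚ)) (-(e2 : ℚ)) (-(e3 : ℚ))).toAffine.Nonsingular (e1 : ℚ) 0 := by
    apply crv_nonsing q12 q13 q23; ring
  have hT2 : (crv (-(e1 : ℚ)) (-(e2 : ℚ)) (-(e3 : ℚ))).toAffine.Nonsingular (e2 : ℚ) 0 := by
    apply crv_nonsing q12 q13 q23; ring
  have hT3 : (crv (-(e1 : ℚ)) (-(e2 : ℚ)) (-(e3 : ℚ))).toAffine.Nonsingular (e3 : ℚ) 0 := by
    apply crv_nonsing q12 q13 q23; ring
  have hdbl : ∀ (x : ℚ)
      (hn : (crv (-(e1 : ℚ)) (-(e2 : ℚ)) (-(e3 : ℚ))).toAffine.Nonsingular x 0),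
      (Affine.Point.some x 0 hn : (crv (-(e1 : ℚ)) (-(e2 : ℚ)) (-(e3 : ℚ))).toAffine.Point) +
        Affine.Point.some x 0 hn = 0 := by
    intro x hn
    have h1 : (crv (-(e1 : ℚ)) (-(e2 : ℚ)) (-(e3 : ℚ))).toAffine.Nonsingular x (-0) := by
      rw [neg_zero]
      exact hn
    have h2 := neg_mk hn h1
    have h3 : (Affine.Point.some x (-0) h1 :
        (crv (-(e1 : ℚ)) (-(e2 : ℚ)) (-(e3 : ℚ))).toAffine.Point) =
        Affine.Point.some x 0 hn := by
      congr 1
      try exact neg_zero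
    rw [h3] at h2
    nth_rw 1 [← h2]
    exact neg_add_cancel _
  let F4 : Finset (crv (-(e1 : ℚ)) (-(e2 : ℚ)) (-(e3 : ℚ))).toAffine.Point :=
    {0, Affine.Point.some _ _ hT1, Affine.Point.some _ _ hT2, Affine.Point.some _ _ hT3}
  have c12 : (e1 : ℚ) ≠ e2 := fun h => q12 (by rw [h])
  have c13 : (e1 : ℚ) ≠ e3 := fun h => q13 (by rw [h])
  have c23 : (e2 : ℚ) ≠ e3 := fun h => q23 (by rw [h])
  have hF4 : F4.card = 4 := by
    simp only [F4]
    rw [Finset.card_insert_of_notMem, Finset.card_insert_of_notMem, Finset.card_insert_of_notMem,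
      Finset.card_singleton]
    · simp [c23]
    · simp [c12, c13]
    · simp
  refine le_trans (rkb2 _ hfg T hcov F4 hF4.ge ?_) hTc
  intro g hg
  simp only [F4, Finset.mem_insert, Finset.mem_singleton] at hg
  rcases hg with rfl | rfl | rfl | rfl
  · exact add_zero _
  · exact hdbl _ _
  · exact hdbl _ _
  · exact hdbl _ _


theorem RK2 : Pool.Agent.Y667.RP.St_RK2 := by
  intro A B e1 e2 e3 hD h hS hr
  obtain ⟨hs, hA, hB⟩ := coef A B e1 e2 e3 h
  refine gen2 A B e1 e2 e3 hD h hS (Sh A B) ?_ hr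
  have hs' : (e1 : ℚ) + e2 + e3 = 0 := by exact_mod_cast congrArg (Int.cast : ℤ → ℚ) hs
  apply WeierstrassCurve.ext
  · rfl
  · show (0 : ℚ) = -(e1 : ℚ) + -(e2 : ℚ) + -(e3 : ℚ)
    linear_combination hs'
  · rfl
  · show (A : ℚ) = -(e1 : ℚ) * -(e2 : ℚ) + -(e1 : ℚ) * -(e3 : ℚ) + -(e2 : ℚ) * -(e3 : ℚ)
    rw [hA]
    push_cast
    ring
  · show (B : ℚ) = -(e1 : ℚ) * -(e2 : ℚ) * -(e3 : ℚ)
    rw [hB]
    push_cast
    ring

end Pool.Agent.Y155.RP
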